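import Pool.Agent.helper88.RQ2.Spec

set_option autoImplicit false

open Set Matroid RadonMin

namespace RadonQ2

section

variable {V : Type} [AddCommGroup V] [Module ℝ V] [DecidableEq V]

lemma KEU_lb (B : Finset V) (h : ra B = 3) : hh B.card ≤ ci B := by
  have h1 := affMat_good B (B : Set V) (by rw [affMat_E]) h
  rw [affMat_restrict B (Finset.Subset.refl B), Set.ncard_coe_finset] at h1
  exact h1

end

lemma KEU_hh6 : hh 6 = 7 := by decide

lemma KEU_hh7 : hh 7 = 17 := by decide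

lemma KEU_hh (q : ℕ) (hq : 5 ≤ q) : hh (q + 2) = q.choose 3 + 1 + (q - 1).choose 2 := by
  obtain ⟨k, rfl⟩ : ∃ k, q = k + 1 := ⟨q - 1, by omega⟩
  have h1 : ((k + 1 + 1).choose 3) = (k + 1).choose 2 + (k + 1).choose 3 :=
    Nat.choose_succ_succ' (k + 1) 2
  have h2 : ((k + 1).choose 2) = k + k.choose 2 := by
    rw [Nat.choose_succ_succ' k 1, Nat.choose_one_right]
  have h3 : corr (k + 1 + 1) = k - 1 := by
    unfold corr
    rw [if_neg (by omega)]
    omega
  unfold hh
  have e : k + 1 + 2 - 1 = k + 1 + 1 := by omega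
  rw [e, h3, h1, h2]
  have e2 : k + 1 - 1 = k := by omega
  rw [e2]
  omega

theorem KEU_proof (hVX : VX_stmt) (hVY : VY_stmt) (hVZ : VZ_stmt) (hVS : VS_stmt) :
    KEU_stmt := by
  intro V _ _ _ q B hq hT
  rcases hT with ⟨h5, hS⟩ | ⟨hq', hQ⟩ | ⟨h5, hA⟩
  · obtain ⟨h3, hle⟩ := hVS V B q (by omega) hS
    refine ⟨h3, ?_⟩
    have hcard : B.card = q + 2 := by
      obtain ⟨L, p, y, z, hc, -⟩ := hS
      exact hc
    have hlb := KEU_lb B h3
    have hhq := KEU_hh q h5
    rw [hcard] at hlb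
    have e : ci B = hh (q + 2) := by omega
    unfold UU
    rw [e, hcard]
    push_cast
    ring
  · obtain ⟨h3, hle⟩ := (hVX V B).2 hQ
    refine ⟨h3, ?_⟩
    have hcard : B.card = 6 := by
      obtain ⟨a, b, c, d, e, f, hc, -⟩ := hQ
      exact hc
    have hlb := KEU_lb B h3
    rw [hcard, KEU_hh6] at hlb
    have e : ci B = 7 := by omega
    rcases hq' with rfl | rfl
    · unfold UU
      rw [e, hcard, show (4 : ℕ) + 2 = 6 from rfl, KEU_hh6]
      norm_num
    · unfold UU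
      rw [e, hcard, show (5 : ℕ) + 2 = 7 from rfl, KEU_hh7]
      norm_num [Nat.choose]
  · subst h5
    have key : ra B = 3 ∧ ci B ≤ 17 ∧ B.card = 7 := by
      rcases hA with hA | hA | hA
      · have h := (hVY V B).1 hA
        obtain ⟨p, a, b, c, x, y, z, hc, -⟩ := hA
        exact ⟨h.1, h.2, hc⟩
      · have h := (hVY V B).2 hA
        obtain ⟨p, a, b, c, x, y, z, hc, -⟩ := hA
        exact ⟨h.1, h.2, hc⟩
      · have h := hVZ V B hA
        obtain ⟨p, a, b, c, x, y, z, hc, -⟩ := hA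
        exact ⟨h.1, h.2, hc⟩
    obtain ⟨h3, hle, hcard⟩ := key
    refine ⟨h3, ?_⟩
    have hlb := KEU_lb B h3
    rw [hcard, KEU_hh7] at hlb
    have e : ci B = 17 := by omega
    unfold UU
    rw [e, hcard, show (5 : ℕ) + 2 = 7 from rfl, KEU_hh7]
    norm_num

end RadonQ2
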